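import Pool.Agent.W927.MT.Stm

/-!
Project MT, part FORM: the rule is a locally checkable labelling problem.
-/

namespace Pool.Agent.W538.MT.Form

open Pool.Agent.W927.MT

section Loc

variable {W V : Type} {H : SimpleGraph W} {G : SimpleGraph V}

/-- All vertices of `G` at distance at most `n` from `φ x` are in the range of `φ`. -/
def Deep (G : SimpleGraph V) (φ : W → V) : ℕ → W → Prop
  | 0, _ => True
  | n + 1, x => ∀ y, G.Adj (φ x) y → ∃ y', φ y' = y ∧ Deep G φ n y'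

theorem Deep.mono1 {φ : W → V} : ∀ {n : ℕ} {x : W}, Deep G φ (n + 1) x → Deep G φ n x := by
  intro n
  induction n with
  | zero => intro x _; trivial
  | succ n ih =>
    intro x h y hy
    obtain ⟨y', h1, h2⟩ := h y hy
    exact ⟨y', h1, ih h2⟩

theorem Deep.mono {φ : W → V} {n m : ℕ} (hnm : n ≤ m) {x : W} (h : Deep G φ m x) :
    Deep G φ n x := by
  induction hnm with
  | refl => exact h
  | step _ ih => exact ih h.mono1

/-- The data of a graph embedding. -/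
structure Emb (H : SimpleGraph W) (G : SimpleGraph V) (φ : W → V) : Prop where
  inj : Function.Injective φ
  adj : ∀ a b, H.Adj a b ↔ G.Adj (φ a) (φ b)

variable {φ : W → V}

theorem Deep.adj (hE : Emb H G φ) {n : ℕ} {x y : W} (h : Deep G φ (n + 1) x) (hxy : H.Adj x y) :
    Deep G φ n y := by
  obtain ⟨y', h1, h2⟩ := h (φ y) ((hE.adj x y).1 hxy)
  rwa [← hE.inj h1]

theorem dg_eq (hE : Emb H G φ) {x : W} (h : Deep G φ 1 x) : dg H x = dg G (φ x) := by
  have : G.neighborSet (φ x) = φ '' H.neighborSet x := by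
    ext y
    constructor
    · intro hy
      obtain ⟨y', rfl, _⟩ := h y hy
      exact ⟨y', (hE.adj x y').2 hy, rfl⟩
    · rintro ⟨y', hy', rfl⟩
      exact (hE.adj x y').1 hy'
  rw [dg, dg, this, Set.ncard_image_of_injective _ hE.inj]

theorem E_to (hE : Emb H G φ) {a b : ℕ} {x y : W} (h : Deep G φ 4 x) (hxy : E H a b x y) :
    E G a b (φ x) (φ y) := by
  obtain ⟨h1, h2, u, w, h3, h4, h5, h6, h7⟩ := hxy
  have hu := h.adj hE h3
  have hw := hu.adj hE h4
  have hy := hw.adj hE h5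
  exact ⟨(dg_eq hE (h.mono (by omega))) ▸ h1, (dg_eq hE hy) ▸ h2, φ u, φ w,
    (hE.adj _ _).1 h3, (hE.adj _ _).1 h4, (hE.adj _ _).1 h5,
    (dg_eq hE (hu.mono (by omega))) ▸ h6, (dg_eq hE (hw.mono (by omega))) ▸ h7⟩

theorem E_lift (hE : Emb H G φ) {a b n : ℕ} {x : W} {z : V} (h : Deep G φ (n + 4) x)
    (hxy : E G a b (φ x) z) : ∃ y, φ y = z ∧ Deep G φ (n + 1) y ∧ E H a b x y := by
  obtain ⟨h1, h2, u, w, h3, h4, h5, h6, h7⟩ := hxy
  obtain ⟨u, rfl, hu⟩ := h u h3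
  obtain ⟨w, rfl, hw⟩ := hu w h4
  obtain ⟨y, rfl, hy⟩ := hw z h5
  refine ⟨y, rfl, hy, ?_, ?_, u, w, (hE.adj _ _).2 h3, (hE.adj _ _).2 h4, (hE.adj _ _).2 h5,
    ?_, ?_⟩
  · rwa [dg_eq hE (h.mono (by omega))]
  · rwa [dg_eq hE (hy.mono (by omega))]
  · rwa [dg_eq hE (hu.mono (by omega))]
  · rwa [dg_eq hE (hw.mono (by omega))]

theorem E_deep (hE : Emb H G φ) {a b n : ℕ} {x y : W} (h : Deep G φ (n + 3) x)
    (hxy : E H a b x y) : Deep G φ n y := by
  obtain ⟨h1, h2, u, w, h3, h4, h5, h6, h7⟩ := hxy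
  exact ((h.adj hE h3).adj hE h4).adj hE h5

theorem E_iff (hE : Emb H G φ) {a b : ℕ} {x y : W} (h : Deep G φ 4 x) :
    E H a b x y ↔ E G a b (φ x) (φ y) := by
  refine ⟨E_to hE h, fun h' => ?_⟩
  obtain ⟨y', h1, _, h2⟩ := E_lift (n := 0) hE h h'
  rwa [← hE.inj h1]

theorem E_symm {a b : ℕ} {x y : V} (h : E G a b x y) : E G b a y x := by
  obtain ⟨h1, h2, u, w, h3, h4, h5, h6, h7⟩ := h
  exact ⟨h2, h1, w, u, h5.symm, h4.symm, h3.symm, h7, h6⟩

theorem E_comm {a b : ℕ} {x y : V} : E G a b x y ↔ E G b a y x := ⟨E_symm, E_symm⟩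

theorem exu {A B : Type} {p : A → Prop} {q : B → Prop} (ψ : A → B) (hψ : Function.Injective ψ)
    (h1 : ∀ w, p w ↔ q (ψ w)) (h2 : ∀ z, q z → ∃ w, ψ w = z) : (∃! w, p w) ↔ ∃! z, q z := by
  constructor
  · rintro ⟨w, hw, hu⟩
    refine ⟨ψ w, (h1 w).1 hw, fun z hz => ?_⟩
    obtain ⟨w', rfl⟩ := h2 z hz
    rw [hu w' ((h1 w').2 hz)]
  · rintro ⟨z, hz, hu⟩
    obtain ⟨w, rfl⟩ := h2 z hz
    refine ⟨w, (h1 w).2 hz, fun w' hw' => hψ (hu _ ((h1 w').1 hw'))⟩

theorem Ok_iff (hE : Emb H G φ) {x : W} (h : Deep G φ 4 x) : Ok H x ↔ Ok G (φ x) := by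
  have hl : ∀ a b z, E G a b (φ x) z → ∃ w, φ w = z := fun a b z hz => by
    obtain ⟨y, hy, _⟩ := E_lift (n := 0) hE h hz
    exact ⟨y, hy⟩
  unfold Ok
  refine and_congr ?_ (and_congr ?_ ?_)
  · refine forall_congr' fun j => exu φ hE.inj (fun w => E_iff hE h) (fun z hz => hl _ _ z hz)
  · refine forall_congr' fun j => exu φ hE.inj (fun w => E_iff hE h) (fun z hz => hl _ _ z hz)
  · refine exu (fun q : Bool × W => (q.1, φ q.2)) ?_ ?_ ?_
    · rintro ⟨a, b⟩ ⟨c, d⟩ h'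
      simp only [Prod.mk.injEq] at h'
      rw [h'.1, hE.inj h'.2]
    · rintro ⟨i, w⟩
      show E H _ _ w x ↔ E G _ _ (φ w) (φ x)
      rw [E_comm, E_iff hE h, E_comm]
    · rintro ⟨i, z⟩ hz
      obtain ⟨w, hw⟩ := hl _ _ z (E_symm hz)
      exact ⟨(i, w), by simp [hw]⟩

theorem Good_iff (hE : Emb H G φ) {x : W} (h : Deep G φ 7 x) : Good H x ↔ Good G (φ x) := by
  have h4 : Deep G φ 4 x := h.mono (by omega)
  have hd : ∀ {a b y}, E H a b x y → Deep G φ 4 y := fun h' => E_deep hE h h'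
  have hl : ∀ {a b z}, E G a b (φ x) z → ∃ y, φ y = z ∧ Deep G φ 4 y ∧ E H a b x y :=
    fun h' => E_lift (n := 3) hE h h'
  constructor
  · rintro ⟨h1, h2, h3, h5⟩
    refine ⟨(Ok_iff hE h4).1 h1, ?_, ?_, ?_⟩
    · intro j w hw
      obtain ⟨y, rfl, hy, hy'⟩ := hl hw
      exact ⟨fun e => (h2 j y hy').1 (hE.inj e), (Ok_iff hE hy).1 (h2 j y hy').2⟩
    · intro i w hw
      obtain ⟨y, rfl, hy, hy'⟩ := hl hw
      exact (Ok_iff hE hy).1 (h3 i y hy')
    · intro i j a b c ha hb hc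
      obtain ⟨a, rfl, da, ha'⟩ := hl ha
      obtain ⟨b, rfl, db, hb'⟩ := hl hb
      obtain ⟨c, rfl, dc, hc'⟩ := E_lift (n := 0) hE db hc
      exact (E_iff hE da).1 (h5 i j a b c ha' hb' hc')
  · rintro ⟨h1, h2, h3, h5⟩
    refine ⟨(Ok_iff hE h4).2 h1, ?_, ?_, ?_⟩
    · intro j y hy
      have := h2 j (φ y) ((E_iff hE h4).1 hy)
      exact ⟨fun e => this.1 (by rw [e]), (Ok_iff hE (hd hy)).2 this.2⟩
    · intro i y hy
      exact (Ok_iff hE (hd hy)).2 (h3 i (φ y) ((E_iff hE h4).1 hy))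
    · intro i j a b c ha hb hc
      exact (E_iff hE (hd ha)).2 (h5 i j (φ a) (φ b) (φ c) ((E_iff hE h4).1 ha)
        ((E_iff hE h4).1 hb) ((E_iff hE (hd hb)).1 hc))

theorem Rule_iff (hE : Emb H G φ) {x : W} (h : Deep G φ 10 x) (t c : V → Bool) (τ : V → Fin 4) :
    Rule H (fun w => t (φ w)) (fun w => c (φ w)) (fun w => τ (φ w)) x ↔ Rule G t c τ (φ x) := by
  have h4 : Deep G φ 4 x := h.mono (by omega)
  have h7 : Deep G φ 7 x := h.mono (by omega)
  have hd : ∀ {a b y}, E H a b x y → Deep G φ 7 y := fun h' => E_deep hE h h'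
  have hl : ∀ {a b z}, E G a b (φ x) z → ∃ y, φ y = z ∧ Deep G φ 7 y ∧ E H a b x y :=
    fun h' => E_lift (n := 6) hE h h'
  unfold Rule
  refine imp_congr (Good_iff hE h7) ?_
  refine and_congr ?_ (and_congr ?_ ?_)
  · constructor
    · intro h1 j w hw
      obtain ⟨y, rfl, hy, hy'⟩ := hl hw
      obtain ⟨a, b, d⟩ := h1 j y hy'
      exact ⟨a, b, fun hg => d ((Good_iff hE hy).2 hg)⟩
    · intro h1 j y hy
      obtain ⟨a, b, d⟩ := h1 j (φ y) ((E_iff hE h4).1 hy)
      exact ⟨a, b, fun hg => d ((Good_iff hE (hd hy)).1 hg)⟩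
  · constructor
    · intro h1 n q hn hq
      obtain ⟨n, rfl, _, hn'⟩ := hl hn
      obtain ⟨q, rfl, _, hq'⟩ := hl hq
      exact h1 n q hn' hq'
    · intro h1 n q hn hq
      exact h1 (φ n) (φ q) ((E_iff hE h4).1 hn) ((E_iff hE h4).1 hq)
  · constructor
    · intro h1 s q hs hq hg
      obtain ⟨s, rfl, ds, hs'⟩ := hl hs
      obtain ⟨q, rfl, _, hq'⟩ := hl hq
      exact h1 s q hs' hq' ((Good_iff hE ds).2 hg)
    · intro h1 s q hs hq hg
      exact h1 (φ s) (φ q) ((E_iff hE h4).1 hs) ((E_iff hE h4).1 hq)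
        ((Good_iff hE (hd hs)).1 hg)

end Loc

/-- The properties of a rooted labelled graph that define the allowed types. -/
def Q {k : ℕ} (e : Fin k ≃ Bool × Bool × Fin 4) (r : ℕ) (B : RG k) : Prop :=
  (∀ w, w ∈ ball B.G r B.root) ∧ (∀ w, (B.G.neighborSet w).encard ≤ 7) ∧
    Rule B.G (fun w => (e (B.lab w)).1) (fun w => (e (B.lab w)).2.1) (fun w => (e (B.lab w)).2.2)
      B.root

theorem deep_iso {W V : Type} {H : SimpleGraph W} {G : SimpleGraph V} (φ : H ≃g G) :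
    ∀ n x, Deep G φ n x := by
  intro n
  induction n with
  | zero => intro x; trivial
  | succ n ih => intro x y _; exact ⟨φ.symm y, by simp, ih _⟩

theorem Q_iso {k : ℕ} (e : Fin k ≃ Bool × Bool × Fin 4) (r : ℕ) (A B : RG k)
    (h : RG.Iso A B) (hA : Q e r A) : Q e r B := by
  obtain ⟨φ, hr, hlab⟩ := h
  have hE : Emb A.G B.G φ := ⟨φ.injective, fun a b => (φ.map_rel_iff).symm⟩
  obtain ⟨h1, h2, h3⟩ := hA
  refine ⟨?_, ?_, ?_⟩
  · intro w
    obtain ⟨p, hp⟩ := h1 (φ.symm w)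
    rw [← hr]
    have e2 : φ (φ.symm w) = w := by simp
    refine ⟨(p.map φ.toHom).copy rfl e2, ?_⟩
    simpa using hp
  · intro w
    have : B.G.neighborSet w = φ '' (A.G.neighborSet (φ.symm w)) := by
      ext y
      constructor
      · intro hy
        refine ⟨φ.symm y, ?_, by simp⟩
        have := (hE.adj (φ.symm w) (φ.symm y)).2
        simp only [RelIso.apply_symm_apply] at this
        exact this hy
      · rintro ⟨y', hy', rfl⟩
        have := (hE.adj (φ.symm w) y').1 hy'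
        simpa using this
    rw [this, hE.inj.encard_image]
    exact h2 _
  · have := (Rule_iff hE (deep_iso φ 10 A.root) (fun w => (e (B.lab w)).1)
      (fun w => (e (B.lab w)).2.1) (fun w => (e (B.lab w)).2.2)).1
    simp only [hlab, hr] at this
    exact this h3

theorem walk_ball {V : Type} (G : SimpleGraph V) (r : ℕ) (v : V) :
    ∀ (n : ℕ) (u : V) (p : G.Walk v u) (hn : p.length = n) (hr : n ≤ r),
      ∃ q : (G.induce (ball G r v)).Walk ⟨v, mem_ball_self G r v⟩ ⟨u, p, hn ▸ hr⟩,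
        q.length ≤ n := by
  intro n
  induction n with
  | zero =>
    intro u p hn hr
    obtain rfl := SimpleGraph.Walk.eq_of_length_eq_zero hn
    exact ⟨.nil, le_rfl⟩
  | succ n ih =>
    intro u p hn hr
    have hne : ¬ p.Nil := by
      intro h
      rw [← SimpleGraph.Walk.length_eq_zero_iff] at h
      omega
    -- decompose at the end
    obtain ⟨w, p', hadj, hp'⟩ : ∃ (w : V) (p' : G.Walk v w) (_ : G.Adj w u), p'.length = n := by
      refine ⟨p.penultimate, p.dropLast, p.adj_penultimate hne, ?_⟩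
      rw [SimpleGraph.Walk.length_dropLast, hn]
      rfl
    obtain ⟨q, hq⟩ := ih w p' hp' (by omega)
    refine ⟨q.concat (v := ⟨w, p', hp' ▸ (by omega)⟩) ?_, ?_⟩
    · exact hadj
    · rw [SimpleGraph.Walk.length_concat]
      omega

theorem deep_ball {V : Type} (G : SimpleGraph V) (r : ℕ) (v : V) :
    ∀ (n : ℕ) (x : ball G r v), (∃ p : G.Walk v x, p.length + n ≤ r) →
      Deep G (Subtype.val : ball G r v → V) n x := by
  intro n
  induction n with
  | zero => intro x _; trivial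
  | succ n ih =>
    rintro x ⟨p, hp⟩ y hy
    have hl : (p.concat hy).length + n ≤ r := by
      rw [SimpleGraph.Walk.length_concat]; omega
    exact ⟨⟨y, p.concat hy, by omega⟩, rfl, ih _ ⟨p.concat hy, hl⟩⟩

theorem main : S_FORM := by
  intro k e
  refine ⟨10, {q | ∃ B : RG k, Quotient.mk (RG.setoid k) B = q ∧ Q e 10 B}, ?_, ?_⟩
  · rintro B ⟨B', h1, h2⟩
    have := Q_iso e 10 B' B (Quotient.exact h1) h2
    exact ⟨this.1, this.2.1⟩
  · intro V G hG f v
    have hE : Emb (G.induce (ball G 10 v)) G (Subtype.val : ball G 10 v → V) :=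
      ⟨Subtype.val_injective, fun a b => Iff.rfl⟩
    have hR := Rule_iff hE (x := ⟨v, mem_ball_self G 10 v⟩)
      (deep_ball G 10 v 10 ⟨v, mem_ball_self G 10 v⟩ ⟨.nil, by simp⟩)
      (fun w => (e (f w)).1) (fun w => (e (f w)).2.1) (fun w => (e (f w)).2.2)
    constructor
    · rintro ⟨B', h1, h2⟩
      have := (Q_iso e 10 B' _ (Quotient.exact h1) h2).2.2
      exact hR.1 this
    · intro hrule
      refine ⟨_, rfl, ?_, ?_, hR.2 hrule⟩
      · rintro ⟨w, p, hp⟩
        obtain ⟨q, hq⟩ := walk_ball G 10 v p.length w p rfl hp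
        exact ⟨q, hq.trans hp⟩
      · intro w
        have hinj : Function.Injective (fun z : (ballRG G 10 f v).W => (z : ball G 10 v).1) :=
          Subtype.val_injective
        refine le_trans ?_ (hG (w : ball G 10 v).1)
        rw [← hinj.encard_image]
        apply Set.encard_le_encard
        rintro _ ⟨y, hy, rfl⟩
        exact hy

end Pool.Agent.W538.MT.Form
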