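import Pool.Agent.W927.MT.Stm

/-!
Project MT, part FUN: Borel functions describing the structure encoded in a graph.
-/

namespace Pool.Agent.W538.MT.Fun

open Pool.Agent.W927.MT MeasureTheory

theorem E_symm {V : Type} {G : SimpleGraph V} {a b : ℕ} {x y : V} (h : E G a b x y) :
    E G b a y x := by
  obtain ⟨h1, h2, u, w, h3, h4, h5, h6, h7⟩ := h
  exact ⟨h2, h1, w, u, h5.symm, h4.symm, h3.symm, h7, h6⟩

theorem E_reach {V : Type} {G : SimpleGraph V} {a b : ℕ} {x y : V} (h : E G a b x y) :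
    G.Reachable x y := by
  obtain ⟨h1, h2, u, w, h3, h4, h5, h6, h7⟩ := h
  exact (h3.reachable.trans h4.reachable).trans h5.reachable

/-- Measurable choice from finitely many functions. -/
theorem sel {X : Type} [MeasurableSpace X] {I : Type} (s : Finset I) (h : I → X → X)
    (M : I → Set X) (hh : ∀ i, Measurable (h i)) (hM : ∀ i, MeasurableSet (M i)) :
    ∃ f : X → X, Measurable f ∧ ∀ v, (∃ i ∈ s, v ∈ M i) → ∃ i ∈ s, v ∈ M i ∧ f v = h i v := by
  classical
  induction s using Finset.induction_on with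
  | empty => exact ⟨id, measurable_id, by simp⟩
  | insert a s _ ih =>
    obtain ⟨f, hf, hf'⟩ := ih
    refine ⟨(M a).piecewise (h a) f, (hh a).piecewise (hM a) hf, ?_⟩
    intro v hv
    by_cases hva : v ∈ M a
    · exact ⟨a, Finset.mem_insert_self _ _, hva, by simp [Set.piecewise, hva]⟩
    · obtain ⟨i, hi, hvi⟩ := hv
      rcases Finset.mem_insert.1 hi with rfl | hi
      · exact absurd hvi hva
      · obtain ⟨i', h1, h2, h3⟩ := hf' v ⟨i, hi, hvi⟩
        exact ⟨i', Finset.mem_insert_of_mem h1, h2, by simp [Set.piecewise, hva, h3]⟩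

section

variable {X : Type} [MeasurableSpace X] [StandardBorelSpace X] {G : SimpleGraph X} {Δ : ℕ}
  {g : Fin Δ → X → X}

/-- The hypotheses. -/
structure Hyp (G : SimpleGraph X) (g : Fin Δ → X → X) : Prop where
  mg : ∀ i, Measurable (g i)
  h1 : ∀ x y, G.Adj x y → ∃ i, g i x = y
  h2 : ∀ i x, g i x = x ∨ G.Adj x (g i x)

theorem mAdj (H : Hyp G g) {α β : X → X} (hα : Measurable α) (hβ : Measurable β) :
    MeasurableSet {x | G.Adj (α x) (β x)} := by
  have : {x | G.Adj (α x) (β x)} = (⋃ i, {x | g i (α x) = β x}) ∩ {x | β x = α x}ᶜ := by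
    ext x
    simp only [Set.mem_ofPred_eq, Set.mem_inter_iff, Set.mem_iUnion, Set.mem_compl_iff]
    constructor
    · intro h
      exact ⟨H.h1 _ _ h, h.ne'⟩
    · rintro ⟨⟨i, hi⟩, hne⟩
      rcases H.h2 i (α x) with h | h
      · exact absurd (hi.symm.trans h) hne
      · rwa [hi] at h
  rw [this]
  exact (MeasurableSet.iUnion fun i => measurableSet_eq_fun ((H.mg i).comp hα) hβ).inter
    (measurableSet_eq_fun hβ hα).compl

open Classical in
theorem dg_sum (H : Hyp G g) (x : X) :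
    dg G x = ∑ i, if g i x ≠ x ∧ ∀ j < i, g j x ≠ g i x then 1 else 0 := by
  have : G.neighborSet x = (fun i => g i x) '' {i | g i x ≠ x ∧ ∀ j < i, g j x ≠ g i x} := by
    ext y
    constructor
    · intro hy
      obtain ⟨i, hi⟩ := H.h1 x y hy
      -- least index
      have hex : ∃ i, g i x = y := ⟨i, hi⟩
      obtain ⟨i0, hi0, hmin⟩ : ∃ i0, g i0 x = y ∧ ∀ j < i0, g j x ≠ y := by
        obtain ⟨i0, h1, h2⟩ := WellFounded.has_min (wellFounded_lt (α := Fin Δ)) {i | g i x = y} hex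
        exact ⟨i0, h1, fun j hj h => h2 j h hj⟩
      refine ⟨i0, ⟨?_, ?_⟩, hi0⟩
      · rw [hi0]; exact (G.ne_of_adj hy).symm
      · intro j hj; rw [hi0]; exact hmin j hj
    · rintro ⟨i, ⟨h1, _⟩, rfl⟩
      exact (H.h2 i x).resolve_left h1
  rw [dg, this, Set.ncard_image_of_injOn, Set.ncard_eq_toFinset_card', ← Finset.card_filter]
  · congr 1
    ext i
    simp
  · rintro i ⟨_, hi⟩ j ⟨_, hj⟩ hij
    rcases lt_trichotomy i j with h | h | h
    · exact absurd hij (hj i h)
    · exact h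
    · exact absurd hij.symm (hi j h)

theorem mdg (H : Hyp G g) : Measurable (dg G) := by
  classical
  have : dg G = fun x => ∑ i, if g i x ≠ x ∧ ∀ j < i, g j x ≠ g i x then 1 else 0 := by
    funext x; exact dg_sum H x
  rw [this]
  refine Finset.measurable_sum _ fun i _ => ?_
  refine Measurable.ite ?_ measurable_const measurable_const
  have : {a | g i a ≠ a ∧ ∀ j < i, g j a ≠ g i a} =
      {a | g i a = a}ᶜ ∩ ⋂ j, ⋂ (_ : j < i), {a | g j a = g i a}ᶜ := by
    ext a; simp
  rw [this]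
  exact (measurableSet_eq_fun (H.mg i) measurable_id).compl.inter
    (MeasurableSet.iInter fun j => MeasurableSet.iInter fun _ =>
      (measurableSet_eq_fun (H.mg j) (H.mg i)).compl)

theorem mdg' (H : Hyp G g) {α : X → X} (hα : Measurable α) (d : ℕ) :
    MeasurableSet {x | dg G (α x) = d} :=
  ((mdg H).comp hα) (measurableSet_singleton d)

theorem mE (H : Hyp G g) (a b : ℕ) {α β : X → X} (hα : Measurable α) (hβ : Measurable β) :
    MeasurableSet {x | E G a b (α x) (β x)} := by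
  have : {x | E G a b (α x) (β x)} = {x | dg G (α x) = 5} ∩ ({x | dg G (β x) = 5} ∩
      ⋃ i, ⋃ j, ({x | G.Adj (α x) (g i (α x))} ∩ ({x | G.Adj (g i (α x)) (g j (g i (α x)))} ∩
        ({x | G.Adj (g j (g i (α x))) (β x)} ∩ ({x | dg G (g i (α x)) = a} ∩
          {x | dg G (g j (g i (α x))) = b}))))) := by
    ext x
    simp only [Set.mem_ofPred_eq, Set.mem_inter_iff, Set.mem_iUnion]
    constructor
    · rintro ⟨h1, h2, u, w, h3, h4, h5, h6, h7⟩
      obtain ⟨i, rfl⟩ := H.h1 _ _ h3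
      obtain ⟨j, rfl⟩ := H.h1 _ _ h4
      exact ⟨h1, h2, i, j, h3, h4, h5, h6, h7⟩
    · rintro ⟨h1, h2, i, j, h3, h4, h5, h6, h7⟩
      exact ⟨h1, h2, _, _, h3, h4, h5, h6, h7⟩
  rw [this]
  have hi : ∀ i, Measurable (fun x => g i (α x)) := fun i => (H.mg i).comp hα
  have hj : ∀ i j, Measurable (fun x => g j (g i (α x))) := fun i j => (H.mg j).comp (hi i)
  exact (mdg' H hα 5).inter ((mdg' H hβ 5).inter (MeasurableSet.iUnion fun i =>
    MeasurableSet.iUnion fun j => (mAdj H hα (hi i)).inter ((mAdj H (hi i) (hj i j)).inter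
      ((mAdj H (hj i j) hβ).inter ((mdg' H (hi i) a).inter (mdg' H (hj i j) b))))))

/-- The functions that reach all points at distance three. -/
def hh (g : Fin Δ → X → X) (i : Fin Δ × Fin Δ × Fin Δ) (x : X) : X := g i.2.2 (g i.2.1 (g i.1 x))

theorem mhh (H : Hyp G g) (i : Fin Δ × Fin Δ × Fin Δ) : Measurable (hh g i) :=
  (H.mg _).comp ((H.mg _).comp (H.mg _))

theorem E_hh (H : Hyp G g) {a b : ℕ} {x y : X} (h : E G a b x y) : ∃ i, hh g i x = y := by
  obtain ⟨h1, h2, u, w, h3, h4, h5, h6, h7⟩ := h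
  obtain ⟨i, rfl⟩ := H.h1 _ _ h3
  obtain ⟨j, rfl⟩ := H.h1 _ _ h4
  obtain ⟨k, rfl⟩ := H.h1 _ _ h5
  exact ⟨(i, j, k), rfl⟩

theorem exu_iff {A I : Type} {P : A → Prop} (q : I → A) (hP : ∀ w, P w → ∃ i, q i = w) :
    (∃! w, P w) ↔ (∃ i, P (q i)) ∧ ∀ i i', P (q i) → P (q i') → q i = q i' := by
  constructor
  · rintro ⟨w, hw, hu⟩
    obtain ⟨i, rfl⟩ := hP w hw
    exact ⟨⟨i, hw⟩, fun i i' h h' => (hu _ h).trans (hu _ h').symm⟩
  · rintro ⟨⟨i, hi⟩, hu⟩
    refine ⟨q i, hi, fun w hw => ?_⟩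
    obtain ⟨i', rfl⟩ := hP w hw
    exact hu i' i hw hi

/-- Implication of measurable sets. -/
theorem mImp {p q : X → Prop} (hp : MeasurableSet {x | p x}) (hq : MeasurableSet {x | q x}) :
    MeasurableSet {x | p x → q x} := by
  have : {x | p x → q x} = {x | p x}ᶜ ∪ {x | q x} := by
    ext x
    simp only [Set.mem_ofPred_eq, Set.mem_union, Set.mem_compl_iff]
    tauto
  rw [this]
  exact hp.compl.union hq

theorem mAll {ι : Type} [Countable ι] {p : ι → X → Prop} (hp : ∀ i, MeasurableSet {x | p i x}) :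
    MeasurableSet {x | ∀ i, p i x} := by
  have : {x | ∀ i, p i x} = ⋂ i, {x | p i x} := by ext x; simp
  rw [this]
  exact MeasurableSet.iInter hp

theorem mEx {ι : Type} [Countable ι] {p : ι → X → Prop} (hp : ∀ i, MeasurableSet {x | p i x}) :
    MeasurableSet {x | ∃ i, p i x} := by
  have : {x | ∃ i, p i x} = ⋃ i, {x | p i x} := by ext x; simp
  rw [this]
  exact MeasurableSet.iUnion hp

theorem mOk (H : Hyp G g) : MeasurableSet {x | Ok G x} := by
  have h1 : ∀ a b, MeasurableSet {v | ∃! w, E G a b v w} := by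
    intro a b
    have : {v | ∃! w, E G a b v w} = {v | ∃ i, E G a b v (hh g i v)} ∩
        {v | ∀ i i', E G a b v (hh g i v) → E G a b v (hh g i' v) → hh g i v = hh g i' v} := by
      ext v
      exact exu_iff (fun i => hh g i v) (fun w hw => E_hh H hw)
    rw [this]
    exact (mEx fun i => mE H a b measurable_id (mhh H i)).inter
      (mAll fun i => mAll fun i' => mImp (mE H a b measurable_id (mhh H i))
        (mImp (mE H a b measurable_id (mhh H i')) (measurableSet_eq_fun (mhh H i) (mhh H i'))))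
  have h2 : MeasurableSet {v | ∃! q : Bool × X, Cr G q.1 q.2 v} := by
    have : {v | ∃! q : Bool × X, Cr G q.1 q.2 v} =
        {v | ∃ i : Bool × (Fin Δ × Fin Δ × Fin Δ), Cr G i.1 (hh g i.2 v) v} ∩
        {v | ∀ i i' : Bool × (Fin Δ × Fin Δ × Fin Δ), Cr G i.1 (hh g i.2 v) v →
          Cr G i'.1 (hh g i'.2 v) v → (i.1 = i'.1 ∧ hh g i.2 v = hh g i'.2 v)} := by
      ext v
      have := exu_iff (P := fun q : Bool × X => Cr G q.1 q.2 v)
        (fun i : Bool × (Fin Δ × Fin Δ × Fin Δ) => (i.1, hh g i.2 v)) (by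
          rintro ⟨b, w⟩ hw
          obtain ⟨i, hi⟩ := E_hh H (E_symm hw)
          exact ⟨(b, i), by simp [hi]⟩)
      simp only [Prod.mk.injEq] at this
      exact this
    rw [this]
    refine (mEx fun (i : Bool × (Fin Δ × Fin Δ × Fin Δ)) =>
      mE H _ _ (mhh H i.2) measurable_id).inter
      (mAll fun (i : Bool × (Fin Δ × Fin Δ × Fin Δ)) =>
        mAll fun (i' : Bool × (Fin Δ × Fin Δ × Fin Δ)) =>
        mImp (mE H _ _ (mhh H i.2) measurable_id)
        (mImp (mE H _ _ (mhh H i'.2) measurable_id) ?_))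
    exact (MeasurableSet.const _).inter (measurableSet_eq_fun (mhh H i.2) (mhh H i'.2))
  have : {x | Ok G x} = {x | ∀ j, ∃! w, Sr G j x w} ∩ ({x | ∀ i, ∃! w, Cr G i x w} ∩
      {v | ∃! q : Bool × X, Cr G q.1 q.2 v}) := rfl
  rw [this]
  exact (mAll fun j => h1 _ _).inter ((mAll fun i => h1 _ _).inter h2)

theorem mGood (H : Hyp G g) : MeasurableSet {x | Good G x} := by
  have : {x | Good G x} = {x | Ok G x} ∩
      ({x | ∀ (j : Bool) (i : Fin Δ × Fin Δ × Fin Δ), Sr G j x (hh g i x) →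
          (¬ (hh g i x = x) ∧ Ok G (hh g i x))} ∩
      ({x | ∀ (j : Bool) (i : Fin Δ × Fin Δ × Fin Δ), Cr G j x (hh g i x) → Ok G (hh g i x)} ∩
      {x | ∀ (i j : Bool) (k l m : Fin Δ × Fin Δ × Fin Δ), Cr G i x (hh g k x) →
        Sr G j x (hh g l x) → Cr G i (hh g l x) (hh g m (hh g l x)) →
        Sr G j (hh g k x) (hh g m (hh g l x))})) := by
    ext x
    constructor
    · rintro ⟨h1, h2, h3, h4⟩
      exact ⟨h1, fun j i h => h2 j _ h, fun j i h => h3 j _ h,
        fun i j k l m a b c => h4 i j _ _ _ a b c⟩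
    · rintro ⟨h1, h2, h3, h4⟩
      refine ⟨h1, ?_, ?_, ?_⟩
      · intro j w hw
        obtain ⟨i, rfl⟩ := E_hh H hw
        exact h2 j i hw
      · intro j w hw
        obtain ⟨i, rfl⟩ := E_hh H hw
        exact h3 j i hw
      · intro i j a b c ha hb hc
        obtain ⟨k, rfl⟩ := E_hh H ha
        obtain ⟨l, rfl⟩ := E_hh H hb
        obtain ⟨m, rfl⟩ := E_hh H hc
        exact h4 i j k l m ha hb hc
  rw [this]
  have hOk : ∀ i, MeasurableSet {x | Ok G (hh g i x)} := fun i => (mhh H i) (mOk H)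
  refine (mOk H).inter (MeasurableSet.inter ?_ (MeasurableSet.inter ?_ ?_))
  · refine mAll fun j => mAll fun i => mImp (mE H _ _ measurable_id (mhh H i)) ?_
    exact (measurableSet_eq_fun (mhh H i) measurable_id).compl.inter (hOk i)
  · exact mAll fun j => mAll fun i => mImp (mE H _ _ measurable_id (mhh H i)) (hOk i)
  · refine mAll fun i => mAll fun j => mAll fun k => mAll fun l => mAll fun m => ?_
    have hml : Measurable fun x => hh g m (hh g l x) := (mhh H m).comp (mhh H l)
    exact mImp (mE H _ _ measurable_id (mhh H k)) (mImp (mE H _ _ measurable_id (mhh H l))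
      (mImp (mE H _ _ (mhh H l) hml) (mE H _ _ (mhh H k) hml)))

end

theorem main : S_FUN := by
  intro X _ _ G Δ g _ hg h1 h2
  have H : Hyp G g := ⟨hg, h1, h2⟩
  -- the functions
  have hsel : ∀ a b, ∃ f : X → X, Measurable f ∧ ∀ v, (∃ w, E G a b v w) → E G a b v (f v) := by
    intro a b
    obtain ⟨f, hf, hf'⟩ := sel Finset.univ (hh g) (fun i => {v | E G a b v (hh g i v)})
      (mhh H) (fun i => mE H a b measurable_id (mhh H i))
    refine ⟨f, hf, fun v ⟨w, hw⟩ => ?_⟩
    obtain ⟨i, rfl⟩ := E_hh H hw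
    obtain ⟨i', _, h, h'⟩ := hf' v ⟨i, Finset.mem_univ _, hw⟩
    rw [h']
    exact h
  choose F mF hF using hsel
  obtain ⟨p, mp, hp⟩ : ∃ f : X → X, Measurable f ∧
      ∀ v, (∃ i w, Cr G i w v) → ∃ i, Cr G i (f v) v := by
    obtain ⟨f, hf, hf'⟩ := sel Finset.univ
      (fun i : Bool × (Fin Δ × Fin Δ × Fin Δ) => hh g i.2)
      (fun i => {v | Cr G i.1 (hh g i.2 v) v})
      (fun i => mhh H i.2) (fun i => mE H _ _ (mhh H i.2) measurable_id)
    refine ⟨f, hf, fun v ⟨i, w, hw⟩ => ?_⟩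
    obtain ⟨k, rfl⟩ := E_hh H (E_symm hw)
    obtain ⟨i', _, h, h'⟩ := hf' v ⟨(i, k), Finset.mem_univ _, hw⟩
    rw [h']
    exact ⟨i'.1, h⟩
  let σ : Bool → X → X := fun j => F (dS j) (dS j)
  let ch : Bool → X → X := fun i => F (dC i) 7
  have hσ : ∀ v, Ok G v → ∀ j w, Sr G j v w ↔ w = σ j v := by
    intro v hv j w
    have hex := hv.1 j
    have hs : Sr G j v (σ j v) := hF _ _ v hex.exists
    constructor
    · intro h; exact hex.unique h hs
    · rintro rfl; exact hs
  have hch : ∀ v, Ok G v → ∀ j w, Cr G j v w ↔ w = ch j v := by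
    intro v hv j w
    have hex := hv.2.1 j
    have hs : Cr G j v (ch j v) := hF _ _ v hex.exists
    constructor
    · intro h; exact hex.unique h hs
    · rintro rfl; exact hs
  have hpar : ∀ v, Ok G v → ∀ i w, Cr G i w v → p v = w := by
    intro v hv i w hw
    obtain ⟨i', hi'⟩ := hp v ⟨i, w, hw⟩
    have := hv.2.2.unique (y₁ := (i', p v)) (y₂ := (i, w)) hi' hw
    exact congrArg Prod.snd this
  have hsy : ∀ j v w, Sr G j v w → Sr G j w v := fun j v w h => E_symm h
  refine ⟨{ Gd := {v | Good G v}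
            σ := σ
            ch := ch
            p := p
            mGd := mGood H
            mσ := fun j => mF _ _
            mch := fun i => mF _ _
            mp := mp
            ne := ?_
            inv := ?_
            par := ?_
            chne := ?_
            comm := ?_
            Rσ := ?_
            Rch := ?_ }, fun v => Iff.rfl, fun v hv => ⟨hσ v hv.1, hch v hv.1⟩⟩
  · intro v hv j
    exact (hv.2.1 j _ ((hσ v hv.1 j _).2 rfl)).1
  · intro v hv j
    have h := (hσ v hv.1 j _).2 rfl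
    have hok := (hv.2.1 j _ h).2
    exact ((hσ _ hok j v).1 (hsy _ _ _ h)).symm
  · intro v hv i
    have h := (hch v hv.1 i _).2 rfl
    exact hpar _ (hv.2.2.1 i _ h) i v h
  · intro v hv he
    have ha := (hch v hv.1 false _).2 rfl
    have hb := (hch v hv.1 true _).2 rfl
    have hok := hv.2.2.1 false _ ha
    rw [← he] at hb
    have := hok.2.2.unique (y₁ := (false, v)) (y₂ := (true, v)) ha hb
    exact Bool.false_ne_true (congrArg Prod.fst this)
  · intro v hv i j
    have ha := (hch v hv.1 i _).2 rfl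
    have hb := (hσ v hv.1 j _).2 rfl
    have hokb := (hv.2.1 j _ hb).2
    have hoka := hv.2.2.1 i _ ha
    have hc := (hch _ hokb i _).2 rfl
    have := hv.2.2.2 i j _ _ _ ha hb hc
    exact ((hσ _ hoka j _).1 this).symm
  · intro v hv j
    exact E_reach ((hσ v hv.1 j _).2 rfl)
  · intro v hv i
    exact E_reach ((hch v hv.1 i _).2 rfl)

end Pool.Agent.W538.MT.Fun
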