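import Pool.Agent.W927.MT.Stm

/-!
Project MT, part NEG: no measurable labelling for two fixed point free involutions with ergodic
composition.
-/

namespace Pool.Agent.W538.MT

open MeasureTheory Pool.Agent.W927.MT Filter
open scoped ENNReal

section Comb

variable {Y : Type} {σ : Bool → Y → Y} {t c : ℕ × Y → Bool} {τ : ℕ × Y → Fin 4}

/-- The rule, unfolded. -/
theorem rule_unfold {n : ℕ} {y : Y} (h : FRule Set.univ (σN σ) chN t c τ (n, y)) :
    (∀ j, t (n, σ j y) = t (n, y) ∧ (τ (n, σ j y) = 0 ↔ τ (n, y) = 0) ∧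
      ¬ (τ (n, y) = 1 ∧ τ (n, σ j y) = 1) ∧
        (τ (n, y) ≠ 1 → τ (n, σ j y) ≠ 1 → c (n, σ j y) ≠ c (n, y))) ∧
    ((τ (n, y) = 2 → (τ (n, σ (!c (n, y)) y) = 1 ∨ τ (n, σ (!c (n, y)) y) = 2) ∧
        (τ (n, σ (c (n, y)) y) = 2 ∨ τ (n, σ (c (n, y)) y) = 3)) ∧
      (τ (n, y) = 3 → (τ (n, σ (!c (n, y)) y) = 2 ∨ τ (n, σ (!c (n, y)) y) = 3) ∧
        (τ (n, σ (c (n, y)) y) = 3 ∨ τ (n, σ (c (n, y)) y) = 1))) ∧
    ((τ (n, y) = 1 → τ (chn (t (n, y)) n, y) = 1) ∧
      ((τ (n, y) = 2 ∨ τ (n, y) = 3) → τ (chn (t (n, y)) n, y) = 0 ∨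
        ((τ (chn (t (n, y)) n, y) = 2 ∨ τ (chn (t (n, y)) n, y) = 3) ∧
          c (chn (t (n, y)) n, y) = c (n, y) ∧
          (τ (chn (t (n, y)) n, y) = 2 ↔
            τ (n, σ (!c (n, y)) y) = 1 ∨ τ (n, σ (!c (n, y)) y) = 2)))) := by
  obtain ⟨h1, h2, h3⟩ := h
  refine ⟨fun j => ?_, h2, h3 (Set.mem_univ _)⟩
  obtain ⟨a, b, d⟩ := h1 j
  exact ⟨a, b, (d (Set.mem_univ _)).1, (d (Set.mem_univ _)).2⟩

theorem bool_aux (a b : Bool) (h : a ≠ b) : a = !b := by
  revert a b; decide

theorem fin4 (x : Fin 4) : x = 0 ∨ x = 1 ∨ x = 2 ∨ x = 3 := by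
  revert x; decide

/-- The main combinatorial lemma: a segment between two walls oriented in the direction of the
sequence. -/
theorem seg (hinv : ∀ j y, σ j (σ j y) = y) (m : ℕ) (hm : 2 ≤ m) (u : ℕ → Y) (e : ℕ → Bool)
    (hu : ∀ i, i < m → u (i + 1) = σ (e i) (u i)) (he : ∀ i, i + 1 < m → e (i + 1) = !(e i))
    (hr : ∀ i, i ≤ m → ∀ n, FRule Set.univ (σN σ) chN t c τ (n, u i)) (n : ℕ)
    (h0 : τ (n, u 0) = 1) (h1 : τ (n, u m) = 1) (h2 : ∀ i, 1 ≤ i → i < m → τ (n, u i) ≠ 1)
    (h3 : ∀ i, 1 ≤ i → i < m → c (n, u i) = e i) : False := by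
  have hlt : ∀ n i, i ≤ m → t (n, u i) = t (n, u 0) := by
    intro n i
    induction i with
    | zero => intro _; rfl
    | succ i ih =>
      intro hi
      rw [hu i (by omega), ← ih (by omega)]
      exact ((rule_unfold (hr i (by omega) n)).1 (e i)).1
  have hl0 : ∀ n i, i ≤ m → (τ (n, u i) = 0 ↔ τ (n, u 0) = 0) := by
    intro n i
    induction i with
    | zero => intro _; rfl
    | succ i ih =>
      intro hi
      rw [hu i (by omega), ← ih (by omega)]
      exact ((rule_unfold (hr i (by omega) n)).1 (e i)).2.1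
  have hprev : ∀ i, 1 ≤ i → i < m → σ (!(e i)) (u i) = u (i - 1) := by
    intro i hi him
    obtain ⟨i, rfl⟩ : ∃ k, i = k + 1 := ⟨i - 1, by omega⟩
    rw [he i him, Bool.not_not, hu i (by omega), hinv]
    rfl
  -- the claim by induction on `k`
  have key : ∀ k, ∃ n', τ (n', u 0) = 1 ∧ τ (n', u m) = 1 ∧
      (∀ i, 1 ≤ i → i < m → (τ (n', u i) = 2 ∨ τ (n', u i) = 3) ∧ c (n', u i) = e i) ∧
      ∀ i, 1 ≤ i → i ≤ k + 1 → i < m → τ (n', u i) = 2 := by
    intro k
    induction k with
    | zero =>
      have hA : ∀ i, 1 ≤ i → i < m → (τ (n, u i) = 2 ∨ τ (n, u i) = 3) ∧ c (n, u i) = e i := by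
        intro i hi him
        refine ⟨?_, h3 i hi him⟩
        have a := hl0 n i him.le
        have b := h2 i hi him
        rcases fin4 (τ (n, u i)) with h | h | h | h
        · rw [h, h0] at a
          exact absurd (a.1 rfl) (by decide)
        · exact absurd h b
        · exact Or.inl h
        · exact Or.inr h
      refine ⟨n, h0, h1, hA, ?_⟩
      intro i hi hi1 him
      obtain rfl : i = 1 := by omega
      rcases (hA 1 le_rfl him).1 with h | h
      · exact h
      · exfalso
        have := ((rule_unfold (hr 1 him.le n)).2.1.2 h).1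
        rw [h3 1 le_rfl him, hprev 1 le_rfl him] at this
        simp only [Nat.sub_self] at this
        rw [h0] at this
        revert this; decide
    | succ k ih =>
      obtain ⟨n', a0, a1, a2, a3⟩ := ih
      refine ⟨chn (t (n', u 0)) n', (rule_unfold (hr 0 (by omega) n')).2.2.1 a0, ?_, ?_⟩
      · have := (rule_unfold (hr m le_rfl n')).2.2.1 a1
        rwa [hlt n' m le_rfl] at this
      · have w0 : τ (chn (t (n', u 0)) n', u 0) = 1 :=
          (rule_unfold (hr 0 (by omega) n')).2.2.1 a0
        have hB : ∀ i, 1 ≤ i → i < m →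
            ((τ (chn (t (n', u 0)) n', u i) = 2 ∨ τ (chn (t (n', u 0)) n', u i) = 3) ∧
            c (chn (t (n', u 0)) n', u i) = e i) ∧
            (τ (chn (t (n', u 0)) n', u i) = 2 ↔
              τ (n', u (i - 1)) = 1 ∨ τ (n', u (i - 1)) = 2) := by
          intro i hi him
          have hnz : τ (chn (t (n', u 0)) n', u i) ≠ 0 := by
            rw [Ne, hl0 _ i him.le, w0]; decide
          have := (rule_unfold (hr i him.le n')).2.2.2 (a2 i hi him).1
          rw [hlt n' i him.le, (a2 i hi him).2, hprev i hi him] at this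
          rcases this with h | ⟨h, h', h''⟩
          · exact absurd h hnz
          · exact ⟨⟨h, h'⟩, h''⟩
        refine ⟨fun i hi him => (hB i hi him).1, ?_⟩
        intro i hi hik him
        rw [(hB i hi him).2]
        rcases Nat.eq_or_lt_of_le hi with h | h
        · subst h
          exact Or.inl a0
        · exact Or.inr (a3 (i - 1) (by omega) (by omega) (by omega))
  obtain ⟨n', a0, a1, a2, a3⟩ := key (m - 2)
  have h := a3 (m - 1) (by omega) (by omega) (by omega)
  have := ((rule_unfold (hr (m - 1) (by omega) n')).2.1.1 h).2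
  rw [(a2 (m - 1) (by omega) (by omega)).2, ← hu (m - 1) (by omega),
    show m - 1 + 1 = m by omega, a1] at this
  revert this; decide

/-- The sequence along a line. -/
theorem zz_succ' (σ : Bool → Y → Y) : ∀ (k : ℕ) (j : Bool) (y : Y),
    zz σ j (k + 1) y = σ (if Even k then j else !j) (zz σ j k y) := by
  intro k
  induction k with
  | zero => intro j y; simp [zz]
  | succ k ih =>
    intro j y
    rw [zz, ih (!j) (σ j y)]
    show _ = σ _ (zz σ (!j) k (σ j y))
    congr 1
    by_cases h : Even k
    · rw [if_pos h, if_neg (by rw [Nat.even_add_one]; simpa using h)]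
    · rw [if_neg h, if_pos (by rw [Nat.even_add_one]; exact h), Bool.not_not]

theorem det (hinv : ∀ j y, σ j (σ j y) = y) (y : Y)
    (hr : ∀ j k n, FRule Set.univ (σN σ) chN t c τ (n, zz σ j k y)) (n : ℕ) (j : Bool) :
    ∀ m, 1 ≤ m → τ (n, y) = 1 → τ (n, zz σ j m y) = 1 → False := by
  intro m
  induction m using Nat.strong_induction_on with
  | _ m IH =>
    intro hm1 h0 h1
    set u : ℕ → Y := fun i => zz σ j i y with hu
    set e : ℕ → Bool := fun i => if Even i then j else !j with he
    have hus : ∀ i, u (i + 1) = σ (e i) (u i) := fun i => zz_succ' σ i j y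
    have hes : ∀ i, e (i + 1) = !(e i) := by
      intro i
      simp only [he]
      by_cases h : Even i
      · rw [if_pos h, if_neg (by rw [Nat.even_add_one]; simpa using h)]
      · rw [if_neg h, if_pos (by rw [Nat.even_add_one]; exact h), Bool.not_not]
    have hr' : ∀ i n, FRule Set.univ (σN σ) chN t c τ (n, u i) := fun i n => hr j i n
    have h0' : τ (n, u 0) = 1 := h0
    have h1' : τ (n, u m) = 1 := h1
    have hm2 : 2 ≤ m := by
      by_contra hlt
      obtain rfl : m = 1 := by omega
      have := ((rule_unfold (hr' 0 n)).1 (e 0)).2.2.1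
      rw [← hus 0] at this
      exact this ⟨h0', h1'⟩
    have h2 : ∀ i, 1 ≤ i → i < m → τ (n, u i) ≠ 1 := fun i hi him h => IH i him hi h0 h
    -- the alternation
    have halt : ∀ i, 1 ≤ i → i + 1 < m → c (n, u (i + 1)) ≠ c (n, u i) := by
      intro i hi him
      have := ((rule_unfold (hr' i n)).1 (e i)).2.2.2
      rw [← hus i] at this
      exact this (h2 i hi (by omega)) (h2 (i + 1) (by omega) him)
    by_cases hc : c (n, u 1) = e 1
    · have h3 : ∀ i, 1 ≤ i → i < m → c (n, u i) = e i := by
        intro i hi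
        induction i, hi using Nat.le_induction with
        | base => intro _; exact hc
        | succ i hi ih =>
          intro him
          have a := halt i hi him
          rw [ih (by omega)] at a
          rw [hes i]
          exact bool_aux _ _ a
      exact seg hinv m hm2 u e (fun i _ => hus i) (fun i _ => hes i) (fun i _ => hr' i) n h0' h1'
        h2 h3
    · have h3 : ∀ i, 1 ≤ i → i < m → c (n, u i) = !(e i) := by
        intro i hi
        induction i, hi using Nat.le_induction with
        | base =>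
          intro _
          exact bool_aux _ _ hc
        | succ i hi ih =>
          intro him
          have a := halt i hi him
          rw [ih (by omega)] at a
          rw [hes i, bool_aux _ _ a]
      refine seg hinv m hm2 (fun i => u (m - i)) (fun i => e (m - 1 - i)) ?_ ?_
        (fun i _ => hr' _) n (by simpa using h1') (by simpa using h0') ?_ ?_
      · intro i hi
        show u (m - (i + 1)) = σ (e (m - 1 - i)) (u (m - i))
        rw [show m - i = (m - 1 - i) + 1 by omega, hus (m - 1 - i), hinv]
        congr 1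
        omega
      · intro i hi
        show e (m - 1 - (i + 1)) = !(e (m - 1 - i))
        rw [show m - 1 - i = (m - 1 - (i + 1)) + 1 by omega, hes, Bool.not_not]
      · intro i hi him
        exact h2 (m - i) (by omega) (by omega)
      · intro i hi him
        show c (n, u (m - i)) = e (m - 1 - i)
        rw [h3 (m - i) (by omega) (by omega), show m - i = (m - 1 - i) + 1 by omega, hes,
          Bool.not_not]

end Comb

theorem iter_zz {Y : Type} (σ : Bool → Y → Y) (m : ℕ) (y : Y) :
    (fun y => σ true (σ false y))^[m] y = zz σ false (2 * m) y := by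
  induction m generalizing y with
  | zero => rfl
  | succ m ih =>
    rw [Function.iterate_succ_apply, ih]
    show _ = zz σ false ((2 * m + 1) + 1) y
    rfl

theorem main : S_NEG := by
  intro Y _ _ ν _ σ hD t c τ ht hc hτ hR
  -- measure preserving walks
  have hzz : ∀ k j, MeasurePreserving (zz σ j k) ν ν := by
    intro k
    induction k with
    | zero => intro j; exact MeasurePreserving.id ν
    | succ k ih =>
      intro j
      exact (ih (!j)).comp (hD.mp j)
  have hY0 : ∀ᵐ y ∂ν, ∀ j k n, FRule Set.univ (σN σ) chN t c τ (n, zz σ j k y) := by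
    rw [ae_all_iff]; intro j
    rw [ae_all_iff]; intro k
    rw [ae_all_iff]; intro n
    exact (hzz k j).quasiMeasurePreserving.ae (hR n)
  -- walls are null
  have hT : MeasurePreserving (fun y => σ true (σ false y)) ν ν := (hD.mp true).comp (hD.mp false)
  have hW : ∀ n, ∀ᵐ y ∂ν, τ (n, y) ≠ 1 := by
    intro n
    have hms : MeasurableSet {y | τ (n, y) = 1} :=
      (hτ.comp (measurable_const.prodMk measurable_id)) (measurableSet_singleton (1 : Fin 4))
    have hrec := hT.conservative.ae_mem_imp_frequently_image_mem hms.nullMeasurableSet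
    filter_upwards [hrec, hY0] with y h1 h2 h3
    have h4 := (Filter.frequently_atTop.1 (h1 h3)) 1
    obtain ⟨m, hm, hm'⟩ := h4
    rw [iter_zz] at hm'
    exact det hD.inv y h2 n false (2 * m) (by omega) h3 hm'
  -- the function `c (0, .)`
  have hW' : ∀ᵐ y ∂ν, ∀ j k, τ (0, zz σ j k y) ≠ 1 := by
    rw [ae_all_iff]; intro j
    rw [ae_all_iff]; intro k
    exact (hzz k j).quasiMeasurePreserving.ae (hW 0)
  have hcn : ∀ᵐ y ∂ν, c (0, σ false y) ≠ c (0, y) ∧
      c (0, σ true (σ false y)) ≠ c (0, σ false y) := by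
    filter_upwards [hY0, hW'] with y h1 h2
    constructor
    · exact ((rule_unfold (h1 false 0 0)).1 false).2.2.2 (h2 false 0) (h2 false 1)
    · exact ((rule_unfold (h1 false 1 0)).1 true).2.2.2 (h2 false 1) (h2 false 2)
  set A : Set Y := {y | c (0, y) = true} with hA
  have hmA : MeasurableSet A :=
    (hc.comp (measurable_const.prodMk measurable_id)) (measurableSet_singleton true)
  have hinvA : (fun y => σ true (σ false y)) ⁻¹' A =ᵐ[ν] A := by
    filter_upwards [hcn] with y hy
    have : (c (0, σ true (σ false y)) = true) = (c (0, y) = true) := by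
      obtain ⟨h1, h2⟩ := hy
      cases h : c (0, y) <;> cases h' : c (0, σ false y) <;>
        cases h'' : c (0, σ true (σ false y)) <;> simp_all
    exact this
  have hflip : (σ false) ⁻¹' A =ᵐ[ν] Aᶜ := by
    filter_upwards [hcn] with y hy
    have : (c (0, σ false y) = true) = (¬ (c (0, y) = true)) := by
      obtain ⟨h1, h2⟩ := hy
      cases h : c (0, y) <;> cases h' : c (0, σ false y) <;> simp_all
    exact this
  have hmeas : ν A = ν Aᶜ := by
    have h := measure_congr hflip
    rw [(hD.mp false).measure_preimage hmA.nullMeasurableSet] at h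
    exact h
  rcases hD.erg.quasiErgodic.ae_empty_or_univ₀ hmA.nullMeasurableSet hinvA with h | h
  · have h0 : ν A = 0 := by rw [measure_congr h]; simp
    have h1 := measure_add_measure_compl (μ := ν) hmA
    rw [← hmeas, h0, measure_univ] at h1
    simp at h1
  · have h0 : ν Aᶜ = 0 := by
      rw [measure_congr h.compl]; simp
    have h1 := measure_add_measure_compl (μ := ν) hmA
    rw [hmeas, h0, measure_univ] at h1
    simp at h1

end Pool.Agent.W538.MT
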